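import Pool.Agent.helper73.SPV.Spec
import Pool.Agent.helper82.NH.FLG

set_option autoImplicit false

/-!
# Row sp:XEF (MP_a2a22c_al): extensions and finite index
-/

namespace Pool.Agent.SPV

open Matrix Module Pool.Agent.SHL Pool.Agent.H48SL

theorem XEF (hPBA : PBA_stmt) (hHA : SHL.HA_stmt) (hHP : BS.HP_stmt) : XEF_stmt := by
  constructor
  · rintro Q Q' _ _ π ⟨a, ha1, ha2⟩ ⟨b, hb1, hb2⟩
    obtain ⟨p1, _, p3, _, p5⟩ := hPBA Q
    have hk : PB a (π.ker : Set Q) := by
      have h := (hPBA π.ker).2.2.2.1 Q π.ker.subtype a Set.univ ha1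
      have e : (π.ker.subtype '' (Set.univ : Set π.ker)) = (π.ker : Set Q) := by
        rw [Set.image_univ]
        exact Subtype.range_coe
      rwa [e] at h
    obtain ⟨S, hS, hS2⟩ := p5 π.range π.rangeRestrict π.rangeRestrict_surjective b Set.univ hb1
    refine ⟨b + a, ?_, ?_⟩
    · refine p1 (b + a) Set.univ _ ?_ (p3 b a S (π.ker : Set Q) hS hk)
      intro x _
      obtain ⟨s, hs, hsx⟩ := hS2 (Set.mem_univ (π.rangeRestrict x))
      refine ⟨s, hs, s⁻¹ * x, ?_, (mul_inv_cancel_left s x).symm⟩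
      show s⁻¹ * x ∈ π.ker
      have h1 : π s = π x := congrArg Subtype.val hsx
      rw [MonoidHom.mem_ker, map_mul, map_inv, h1, inv_mul_cancel]
    · have h2 : Hi a ((⊤ : Subgroup Q) ⊓ π.ker) := by
        have h3 := NH.FLG_map π.ker.subtype (Subgroup.subtype_injective _) a ⊤ ha2
        rw [← MonoidHom.range_eq_map, Subgroup.range_subtype] at h3
        rwa [top_inf_eq]
      have h4 : Hi b ((⊤ : Subgroup Q).map π) := by
        have h5 := NH.FLG_map π.range.subtype (Subgroup.subtype_injective _) b ⊤ hb2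
        rw [← MonoidHom.range_eq_map, Subgroup.range_subtype] at h5
        rwa [← MonoidHom.range_eq_map]
      rw [add_comm]
      exact (hHP Q).2 Q' π a b ⊤ h2 h4
  · rintro Q _ G₁ hfin ⟨N, h1, h2⟩
    obtain ⟨p1, p2, _, _, _⟩ := hPBA Q
    have hG : PB N (G₁ : Set Q) := by
      have h := (hPBA G₁).2.2.2.1 Q G₁.subtype N Set.univ h1
      have e : (G₁.subtype '' (Set.univ : Set G₁)) = (G₁ : Set Q) := by
        rw [Set.image_univ]
        exact Subtype.range_coe
      rwa [e] at h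
    have : Finite (Q ⧸ G₁) := Subgroup.finite_quotient_of_finiteIndex
    refine ⟨N, ?_, ?_⟩
    · refine p1 N Set.univ _ ?_ (p2 N (Set.range (Quotient.out : Q ⧸ G₁ → Q)) (G₁ : Set Q)
        (Set.finite_range _) hG)
      intro x _
      refine ⟨Quotient.out (x : Q ⧸ G₁), ⟨_, rfl⟩, (Quotient.out (x : Q ⧸ G₁))⁻¹ * x, ?_,
        (mul_inv_cancel_left _ x).symm⟩
      show (Quotient.out (x : Q ⧸ G₁))⁻¹ * x ∈ G₁
      rw [← QuotientGroup.eq]
      exact Quotient.out_eq' (x : Q ⧸ G₁)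
    · have h3 := NH.FLG_map G₁.subtype (Subgroup.subtype_injective _) N ⊤ h2
      rw [← MonoidHom.range_eq_map, Subgroup.range_subtype] at h3
      exact (hHA Q).1 N G₁ ⊤ le_top h3

end Pool.Agent.SPV
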